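import Pool.Agent.Lib_helper68.DomaticGame

namespace Pool.Agent.Results.MP_e0e877_co.BGame

open Pool.Agent.DomaticGame

universe u

/-- The delayed game domatic number: the largest palette size `k ≥ 1` for which Alice wins the B-game. -/
noncomputable def delayedGameDomaticNumber {V : Type u} (H : SimpleGraph V) : ℕ :=
  sSup {k : ℕ | 1 ≤ k ∧ AliceWinsBGame H k}

/-- Palette monotonicity of the B-game. No finite simple graph admits a palette size `k ≥ 1` for
which the B-game with palette `k` is not an Alice win while the B-game with palette `k + 1` is an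
Alice win. Moreover, on every finite graph with at least one vertex the delayed game domatic number is
the greatest palette size `≥ 1` that Alice wins, and she wins the B-game with palette size `k ≥ 1`
exactly when `k` is at most the delayed game domatic number. -/
theorem result :
    (¬ ∃ (V : Type u) (_ : Fintype V) (H : SimpleGraph V) (k : ℕ),
        1 ≤ k ∧ ¬ AliceWinsBGame H k ∧ AliceWinsBGame H (k + 1)) ∧
    (∀ (V : Type u) [Fintype V] [Nonempty V] (H : SimpleGraph V),
        IsGreatest {k : ℕ | 1 ≤ k ∧ AliceWinsBGame H k} (delayedGameDomaticNumber H) ∧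
        ∀ k : ℕ, 1 ≤ k → (AliceWinsBGame H k ↔ k ≤ delayedGameDomaticNumber H)) := by
  refine ⟨?_, ?_⟩
  · rintro ⟨V, _, H, k, hk, hn, hs⟩
    exact hn (bGame_succ hk hs)
  · intro V _ _ H
    exact threshold (fun k => AliceWinsBGame H k) (wins_one' H _ _)
      (fun k hk h => bGame_succ hk h) (Fintype.card V) (fun k h => le_card h)

end Pool.Agent.Results.MP_e0e877_co.BGame
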